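import Mathlib
import Pool.Agent.H.MP_175962_nt.B

set_option autoImplicit false

namespace Pool.Agent.Results.MP_175962_nt.Yes

open Pool.Agent.H.MP_175962_nt Finset Real Filter

/-- the triangular numbers -/
def T (i : ℕ) : ℕ := i * (i + 1) / 2

theorem two_T (i : ℕ) : P i = 2 * T i := (Nat.two_mul_div_two_of_even (Nat.even_mul_succ_self i)).symm

theorem super : ∃ W : ℕ → ℝ, (∀ d, 0 ≤ W d) ∧
    ∀ d, 1 ≤ d → ∀ N, 1 / (P d : ℝ) + ∑ n ∈ up d N, W n ≤ W d := by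
  obtain ⟨G, C, h0, h1, h2⟩ := exists_G
  refine ⟨fun d => 10 * exp C * (P d : ℝ) ^ (-(15 / 16) : ℝ) * exp (-∑ e ∈ range d, G e),
    fun d => by positivity, fun d hd N => ?_⟩
  have pd : d ≤ P d := Nat.le_mul_of_pos_right _ (Nat.succ_pos _)
  have pd' : (0 : ℝ) < P d := by exact_mod_cast hd.trans pd
  have a1 : 1 / (P d : ℝ) ≤ exp C * (P d : ℝ) ^ (-(15 / 16) : ℝ) * exp (-∑ e ∈ range d, G e) := by
    have := log_le_log (by exact_mod_cast hd) (show (d : ℝ) ≤ P d by exact_mod_cast pd)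
    have := h2 d hd
    rw [rpow_def_of_pos pd', ← exp_add, ← exp_add, one_div, ← exp_log pd', ← exp_neg, log_exp,
      exp_le_exp]
    linarith
  have a2 : ∑ n ∈ up d N, 10 * exp C * (P n : ℝ) ^ (-(15 / 16) : ℝ) * exp (-∑ e ∈ range n, G e) ≤
      10 * exp C * (P d : ℝ) ^ (-(15 / 16) : ℝ) * exp (-∑ e ∈ range (d + 1), G e) *
        ∑ n ∈ up d N, a (P n / P d) := by
    rw [mul_sum]
    refine sum_le_sum fun n hn => ?_
    obtain ⟨⟨b1, -⟩, m, b2⟩ := mem_up.1 hn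
    rw [b2, Nat.mul_div_cancel_left _ (hd.trans pd), Nat.cast_mul,
      mul_rpow pd'.le (by positivity), ← mul_assoc, mul_right_comm, a]
    gcongr
    exacts [fun _ _ _ => h0 _, b1]
  have a3 := mul_le_mul_of_nonneg_left (h1 d hd N) (show 0 ≤
    10 * exp C * (P d : ℝ) ^ (-(15 / 16) : ℝ) * exp (-∑ e ∈ range (d + 1), G e) by positivity)
  have a4 : exp (-∑ e ∈ range (d + 1), G e) * exp (G d) = exp (-∑ e ∈ range d, G e) := by
    rw [← exp_add, sum_range_succ]; ring_nf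
  beta_reduce
  rw [← a4] at a1 ⊢
  linarith

theorem result (μ : ℕ → ℤ) (h1 : μ 1 = 1)
    (h : ∀ n, 2 ≤ n → ∑ d ∈ (Icc 1 n).filter (fun d => T d ∣ T n), μ d = 0) :
    Summable (fun i => |(μ (i + 1) : ℝ)| / T (i + 1)) ∧
      ∃ D : ℝ, Tendsto (fun n => ∑ i ∈ Icc 1 n, (μ i : ℝ) / T i) atTop (nhds D) := by
  obtain ⟨W, w0, hW⟩ := super
  have hA : ∀ n, 2 ≤ n → |(μ n : ℝ)| ≤ ∑ d ∈ (Ico 1 n).filter (fun d => P d ∣ P n), |(μ d : ℝ)| := by
    intro n hn
    have := h n hn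
    rw [← Ico_insert_right (by omega), filter_insert, if_pos dvd_rfl, sum_insert (by simp),
      add_eq_zero_iff_eq_neg] at this
    rw [this]
    push_cast
    rw [abs_neg]
    refine (abs_sum_le_sum_abs _ _).trans_eq (sum_congr (filter_congr fun d _ => ?_) fun _ _ => rfl)
    rw [two_T, two_T, Nat.mul_dvd_mul_iff_left two_pos]
  have hB : ∀ N, ∑ n ∈ Icc 1 N, |(μ n : ℝ)| * (1 / P n) ≤ W 1 := fun N => by
    have a1 : ∑ n ∈ Icc 1 N, |(μ n : ℝ)| * (1 / P n) + ∑ d ∈ Icc 1 N, ∑ n ∈ up d N, |(μ d : ℝ)| * W n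
        ≤ ∑ n ∈ Icc 1 N, |(μ n : ℝ)| * W n := by
      rw [← sum_add_distrib]
      refine sum_le_sum fun d hd => ?_
      rw [← mul_sum, ← mul_add]
      exact mul_le_mul_of_nonneg_left (hW d (mem_Icc.1 hd).1 N) (abs_nonneg _)
    rw [sum_comm' (t' := Icc 2 N) (s' := fun n => (Ico 1 n).filter fun d => P d ∣ P n)
      (fun d n => by simp only [mem_up, mem_Icc, mem_filter, mem_Ico]; grind)] at a1
    have a2 : ∑ n ∈ Icc 2 N, |(μ n : ℝ)| * W n ≤
        ∑ n ∈ Icc 2 N, ∑ d ∈ (Ico 1 n).filter (fun d => P d ∣ P n), |(μ d : ℝ)| * W n :=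
      sum_le_sum fun n hn => by
        rw [← sum_mul]; exact mul_le_mul_of_nonneg_right (hA n (mem_Icc.1 hn).1) (w0 n)
    have a3 : ∑ n ∈ Icc 1 N, |(μ n : ℝ)| * W n ≤ ∑ n ∈ insert 1 (Icc 2 N), |(μ n : ℝ)| * W n :=
      sum_le_sum_of_subset_of_nonneg (fun n => by simp only [mem_insert, mem_Icc]; omega)
        fun _ _ _ => mul_nonneg (abs_nonneg _) (w0 _)
    rw [sum_insert (by simp), h1] at a3
    norm_num at a3
    linarith
  have e : ∀ (f : ℕ → ℝ) (N : ℕ), ∑ i ∈ Icc 1 N, f i = ∑ i ∈ range N, f (i + 1) := fun f N => by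
    rw [← Ico_add_one_right_eq_Icc, sum_Ico_eq_sum_range]
    simp [add_comm]
  have hS : Summable (fun i => |(μ (i + 1) : ℝ)| / T (i + 1)) := by
    refine summable_of_sum_range_le (c := 2 * W 1) (fun _ => by positivity) fun N => ?_
    refine le_trans (le_of_eq ?_) (mul_le_mul_of_nonneg_left (hB N) two_pos.le)
    rw [e, mul_sum]
    refine sum_congr rfl fun i _ => ?_
    rw [two_T]
    push_cast
    ring
  refine ⟨hS, ∑' i, (μ (i + 1) : ℝ) / T (i + 1), ?_⟩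
  simp only [e]
  exact (Summable.of_abs (hS.congr fun i => by simp [abs_div])).hasSum.tendsto_sum_nat

end Pool.Agent.Results.MP_175962_nt.Yes
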